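import Mathlib

namespace Pool.Agent.Results.MP_44674b_co.NotSelfDual

open Finset

/-- A `d`-class symmetric association scheme on `X`; `rel x y = i` means `(x, y) ∈ R_i`. -/
structure Scheme (X : Type) [Fintype X] [DecidableEq X] (d : ℕ) where
  rel : X → X → Fin (d + 1)
  nonempty : Nonempty X
  diag : ∀ x y, rel x y = 0 ↔ x = y
  symm : ∀ x y, rel x y = rel y x
  surj : ∀ i, ∃ x y, rel x y = i
  inter : ∃ p : Fin (d + 1) → Fin (d + 1) → Fin (d + 1) → ℕ, ∀ i j x y,
    (univ.filter fun z => rel x z = i ∧ rel z y = j).card = p i j (rel x y)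

variable {X : Type} [Fintype X] [DecidableEq X] {d : ℕ}

/-- The adjacency matrix of `R_i`. -/
def adjM (S : Scheme X d) (i : Fin (d + 1)) : Matrix X X ℂ :=
  Matrix.of fun x y => if S.rel x y = i then 1 else 0

/-- The Bose-Mesner algebra, as the span of the adjacency matrices. -/
def BM (S : Scheme X d) : Submodule ℂ (Matrix X X ℂ) := Submodule.span ℂ (Set.range (adjM S))

/-- The triangle tensor, as its coefficient function on `X × X × X`. -/
def triT (L M N : Matrix X X ℂ) : X × X × X → ℂ :=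
  fun t => L t.1 t.2.2 * M t.1 t.2.1 * N t.2.1 t.2.2

/-- The star tensor, as its coefficient function on `X × X × X`. -/
def starT (L M N : Matrix X X ℂ) : X × X × X → ℂ :=
  fun t => ∑ u, L t.1 u * M t.2.1 u * N t.2.2 u

def WTri (S : Scheme X d) : Submodule ℂ (X × X × X → ℂ) :=
  Submodule.span ℂ {T | ∃ L ∈ BM S, ∃ M ∈ BM S, ∃ N ∈ BM S, T = triT L M N}

def WStar (S : Scheme X d) : Submodule ℂ (X × X × X → ℂ) :=
  Submodule.span ℂ {T | ∃ L ∈ BM S, ∃ M ∈ BM S, ∃ N ∈ BM S, T = starT L M N}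

def TriplyRegular (S : Scheme X d) : Prop :=
  ∃ t : Fin (d + 1) → Fin (d + 1) → Fin (d + 1) → Fin (d + 1) → Fin (d + 1) → Fin (d + 1) → ℕ,
    ∀ i j k x y z, (univ.filter fun u => S.rel x u = i ∧ S.rel y u = j ∧ S.rel z u = k).card =
      t i j k (S.rel x y) (S.rel x z) (S.rel y z)

def DuallyTriplyRegular (S : Scheme X d) : Prop := WTri S ≤ WStar S

/-- `E` lists the primitive idempotents of the Bose-Mesner algebra, with `E 0 = J / |X|`. -/
def IsPrimIdem (S : Scheme X d) (E : Fin (d + 1) → Matrix X X ℂ) : Prop :=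
  (∀ i, E i ∈ BM S) ∧ (∀ i, E i ≠ 0) ∧ (∀ i j, E i * E j = if i = j then E i else 0) ∧
    ∑ i, E i = 1 ∧ E 0 = ((Fintype.card X : ℂ)⁻¹) • Matrix.of fun _ _ => (1 : ℂ)

/-- Some ordering of the relations and of the primitive idempotents makes `P = Q`. -/
def FormallySelfDual (S : Scheme X d) : Prop :=
  ∃ (σ : Equiv.Perm (Fin (d + 1))) (E : Fin (d + 1) → Matrix X X ℂ)
    (P Q : Matrix (Fin (d + 1)) (Fin (d + 1)) ℂ), IsPrimIdem S E ∧
    (∀ i, adjM S (σ i) = ∑ j, P j i • E j) ∧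
    (∀ i, E i = ((Fintype.card X : ℂ)⁻¹) • ∑ j, Q j i • adjM S (σ j)) ∧ P = Q

def r6 (x y : Fin 6) : Fin 3 := if x = y then 0 else if x.val % 2 = y.val % 2 then 1 else 2

def p6 (i j k : Fin 3) : ℕ := (univ.filter fun z => r6 0 z = i ∧ r6 z (if k = 0 then 0 else if k = 1 then 2 else 1) = j).card

def S6 : Scheme (Fin 6) 2 where
  rel := r6
  nonempty := ⟨0⟩
  diag := by decide
  symm := by decide
  surj := by decide
  inter := ⟨p6, by decide +kernel⟩

lemma tr_aux : ∀ x y z y' z' : Fin 6, r6 x y = r6 0 y' → r6 x z = r6 0 z' → r6 y z = r6 y' z' →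
    ∀ i j k : Fin 3, (univ.filter fun u => r6 x u = i ∧ r6 y u = j ∧ r6 z u = k).card =
    (univ.filter fun u => r6 0 u = i ∧ r6 y' u = j ∧ r6 z' u = k).card := by decide +kernel

lemma ex_rep : ∀ x y z : Fin 6, ∃ y' z' : Fin 6, r6 x y = r6 0 y' ∧ r6 x z = r6 0 z' ∧
    r6 y z = r6 y' z' := by decide +kernel

lemma S6_triply : TriplyRegular S6 := by
  classical
  refine ⟨fun i j k a b c => if h : ∃ y' z' : Fin 6, a = r6 0 y' ∧ b = r6 0 z' ∧ c = r6 y' z' then
    (univ.filter fun u => r6 0 u = i ∧ r6 h.choose u = j ∧ r6 h.choose_spec.choose u = k).card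
    else 0, fun i j k x y z => ?_⟩
  have h := ex_rep x y z
  show (univ.filter fun u => r6 x u = i ∧ r6 y u = j ∧ r6 z u = k).card = dite _ _ _
  have h' : ∃ y' z' : Fin 6, S6.rel x y = r6 0 y' ∧ S6.rel x z = r6 0 z' ∧
    S6.rel y z = r6 y' z' := h
  rw [dif_pos h']
  obtain ⟨h1, h2, h3⟩ := h'.choose_spec.choose_spec
  exact tr_aux x y z _ _ h1 h2 h3 i j k

/-- The basis `I`, `I + A_1`, `J`. -/
def bN (i : Fin 3) (x y : Fin 6) : ℕ := if r6 x y ≤ i then 1 else 0

def bM (i : Fin 3) : Matrix (Fin 6) (Fin 6) ℂ := Matrix.of fun x y => (bN i x y : ℂ)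

lemma tri_star : ∀ i j k : Fin 3, ∃ i' j' k' : Fin 3, ∀ x y z : Fin 6,
    bN i x z * bN j x y * bN k y z = ∑ u, bN i' x u * bN j' y u * bN k' z u := by
  decide +kernel

lemma tri_star_e : ∀ i j k : Fin 3, ∃ i' j' k' : Fin 3,
    triT (bM i) (bM j) (bM k) = starT (bM i') (bM j') (bM k') := by
  intro i j k
  obtain ⟨i', j', k', h⟩ := tri_star i j k
  refine ⟨i', j', k', funext fun t => ?_⟩
  have := congrArg (fun n : ℕ => (n : ℂ)) (h t.1 t.2.1 t.2.2)
  simpa [triT, starT, bM] using this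

lemma bM_eq (i : Fin 3) : bM i = ∑ j : Fin 3, (if j ≤ i then (1 : ℂ) else 0) • adjM S6 j := by
  ext x y
  simp only [bM, bN, adjM, Matrix.of_apply, Matrix.sum_apply, Matrix.smul_apply, smul_eq_mul]
  show _ = ∑ j : Fin 3, (if j ≤ i then (1 : ℂ) else 0) * (if r6 x y = j then 1 else 0)
  simp

lemma bM_mem (i : Fin 3) : bM i ∈ BM S6 := by
  rw [bM_eq]
  exact Submodule.sum_mem _ fun j _ => Submodule.smul_mem _ _ (Submodule.subset_span ⟨j, rfl⟩)

lemma BM_le : BM S6 ≤ Submodule.span ℂ (Set.range bM) := by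
  rw [BM, Submodule.span_le]
  rintro _ ⟨i, rfl⟩
  have h0 : bM 0 ∈ Submodule.span ℂ (Set.range bM) := Submodule.subset_span ⟨0, rfl⟩
  have h1 : bM 1 ∈ Submodule.span ℂ (Set.range bM) := Submodule.subset_span ⟨1, rfl⟩
  have h2 : bM 2 ∈ Submodule.span ℂ (Set.range bM) := Submodule.subset_span ⟨2, rfl⟩
  have e0 : adjM S6 0 = bM 0 := by rw [bM_eq]; simp [Fin.sum_univ_three]
  have e1 : adjM S6 1 = bM 1 - bM 0 := by rw [bM_eq, bM_eq]; simp [Fin.sum_univ_three]
  have e2 : adjM S6 2 = bM 2 - bM 1 := by rw [bM_eq, bM_eq]; simp [Fin.sum_univ_three]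
  fin_cases i
  · exact e0 ▸ h0
  · exact e1 ▸ Submodule.sub_mem _ h1 h0
  · exact e2 ▸ Submodule.sub_mem _ h2 h1

lemma S6_dual : DuallyTriplyRegular S6 := by
  rw [DuallyTriplyRegular, WTri, Submodule.span_le]
  rintro _ ⟨L, hL, M, hM, N, hN, rfl⟩
  obtain ⟨a, rfl⟩ := (Submodule.mem_span_range_iff_exists_fun ℂ).1 (BM_le hL)
  obtain ⟨b, rfl⟩ := (Submodule.mem_span_range_iff_exists_fun ℂ).1 (BM_le hM)
  obtain ⟨c, rfl⟩ := (Submodule.mem_span_range_iff_exists_fun ℂ).1 (BM_le hN)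
  have e : triT (∑ i, a i • bM i) (∑ i, b i • bM i) (∑ i, c i • bM i) =
      ∑ i, ∑ j, ∑ k, (a i * b j * c k) • triT (bM i) (bM j) (bM k) := by
    funext t
    simp only [triT, Matrix.sum_apply, Matrix.smul_apply, smul_eq_mul, Finset.sum_apply,
      Pi.smul_apply, Fin.sum_univ_three, Pi.add_apply, Matrix.add_apply]
    ring
  rw [e]
  refine Submodule.sum_mem _ fun i _ => Submodule.sum_mem _ fun j _ =>
    Submodule.sum_mem _ fun k _ => Submodule.smul_mem _ _ ?_
  obtain ⟨i', j', k', h⟩ := tri_star_e i j k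
  rw [h]
  exact Submodule.subset_span ⟨_, bM_mem i', _, bM_mem j', _, bM_mem k', rfl⟩

lemma S6_not : ¬ FormallySelfDual S6 := by
  rintro ⟨σ, E, P, Q, ⟨-, -, hmul, -, hE0⟩, hA, hE, rfl⟩
  have ent : ∀ i x y, E i x y = (6 : ℂ)⁻¹ * P (σ.symm (r6 x y)) i := by
    intro i x y
    rw [hE i]
    simp only [Matrix.smul_apply, Matrix.sum_apply, adjM, Matrix.of_apply, smul_eq_mul,
      Fintype.card_fin, Nat.cast_ofNat]
    congr 1
    rw [Finset.sum_eq_single (σ.symm (r6 x y))]
    · show _ * (if r6 x y = _ then (1 : ℂ) else 0) = _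
      simp
    · intro j _ hj
      have : ¬ S6.rel x y = σ j := by
        intro h
        apply hj
        have h' : r6 x y = σ j := h
        rw [h']; simp
      simp [this]
    · simp
  -- all-ones column
  have hP0 : ∀ a : Fin 3, P (σ.symm a) 0 = 1 := by
    intro a
    obtain ⟨x, y, hxy⟩ := S6.surj a
    have h1 := ent 0 x y
    have h' : r6 x y = a := hxy
    rw [hE0, h'] at h1
    simp only [Matrix.smul_apply, Matrix.of_apply, Fintype.card_fin, Nat.cast_ofNat,
      smul_eq_mul] at h1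
    linear_combination (-6 : ℂ) * h1
  have hAE : ∀ i, adjM S6 (σ i) * E 0 = P 0 i • E 0 := by
    intro i
    rw [hA i, Finset.sum_mul, Finset.sum_eq_single 0]
    · rw [Matrix.smul_mul, hmul]; simp
    · intro j _ hj
      rw [Matrix.smul_mul, hmul]; simp [hj]
    · simp
  have hval : ∀ a : Fin 3, P 0 (σ.symm a) = (a.val : ℂ) + 1 := by
    intro a
    have h1 := congrFun (congrFun (hAE (σ.symm a)) 0) 0
    rw [hE0] at h1
    simp only [Equiv.apply_symm_apply, Matrix.mul_apply, Matrix.smul_apply, Matrix.of_apply,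
      Fintype.card_fin, Nat.cast_ofNat, smul_eq_mul, adjM, Fin.sum_univ_six] at h1
    have h2 : ∀ y, S6.rel 0 y = r6 0 y := fun _ => rfl
    simp only [h2] at h1
    fin_cases a
    · simp (decide := true) only at h1
      simp at h1 ⊢
      exact h1
    · simp (decide := true) only at h1
      simp at h1 ⊢
      linear_combination (-6 : ℂ) * h1
    · simp (decide := true) only at h1
      simp at h1 ⊢
      linear_combination (-6 : ℂ) * h1
  have hσ : σ.symm 0 = 0 := by
    have h1 := hP0 (σ 0)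
    have h2 := hval (σ 0)
    simp only [Equiv.symm_apply_apply] at h1 h2
    rw [h1] at h2
    have h3 : ((σ 0).val : ℂ) = 0 := by linear_combination -h2
    have h4 : (σ 0).val = 0 := by exact_mod_cast h3
    have h5 : σ 0 = 0 := Fin.ext h4
    rw [Equiv.symm_apply_eq]; exact h5.symm
  set i := σ.symm 2 with hi
  have ha : P (σ.symm 0) i = 3 := by
    rw [hσ, hi, hval]; norm_num
  have hsq : E i * E i = E i := by rw [hmul]; simp
  have h00 := congrFun (congrFun hsq 0) 0
  have h02 := congrFun (congrFun hsq 0) 2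
  have h01 := congrFun (congrFun hsq 0) 1
  simp only [Matrix.mul_apply, Fin.sum_univ_six, ent] at h00 h01 h02
  simp (decide := true) only [r6, if_true, if_false] at h00 h01 h02
  rw [ha] at h00 h01 h02
  set b := P (σ.symm 1) i
  set c := P (σ.symm 2) i
  have e1 : b * c = 0 := by linear_combination (9 : ℂ) * h01
  have e2 : b ^ 2 = 9 := by linear_combination (36 : ℂ) * h00 - (36 : ℂ) * h02
  have e3 : c ^ 2 = -3 := by linear_combination (12 : ℂ) * h02 - (1 / 3 : ℂ) * e2
  have : (b * c) ^ 2 = -27 := by rw [mul_pow, e2, e3]; norm_num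
  rw [e1] at this
  norm_num at this

theorem result : ∃ (X : Type) (_ : Fintype X) (_ : DecidableEq X) (d : ℕ) (S : Scheme X d),
    TriplyRegular S ∧ DuallyTriplyRegular S ∧ ¬ FormallySelfDual S :=
  ⟨Fin 6, inferInstance, inferInstance, 2, S6, S6_triply, S6_dual, S6_not⟩

end Pool.Agent.Results.MP_44674b_co.NotSelfDual
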